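import Pool.Agent.T9h4.RQ.Main

/-! Varieties of maximal Albanese dimension. -/

set_option autoImplicit false
set_option linter.overlappingInstances false
set_option linter.unusedSectionVars false

universe u v

open FF IntermediateField Pool.Agent.W619.PQ Pool.Agent.W619.PL Pool.Agent.W619.TW
  Pool.Agent.W603.LV Pool.Agent.W619.Y

namespace Pool.Agent.T9h4.RQ

section

variable {k : Type v} {L : Type u} [Field k] [Field L] [Algebra k L]

/-- The rational differential form `ω` is holomorphic on the smooth projective models of `L`, which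
have dimension `n`. -/
def HoloForm (n : ℕ) (ω : Derivation k L L →ₗ[L] L) : Prop :=
  ∀ w : Place k L, IsDivisorial w n → ∀ D : Derivation k L L,
    (∀ f, w.Reg f → w.Reg (D f)) → w.Reg (ω D)

/-- The differential form `ω` is invariant under the automorphism `g`. -/
def InvForm (g : L ≃ₐ[k] L) (ω : Derivation k L L →ₗ[L] L) : Prop :=
  ∀ D : Derivation k L L, g (ω D) = ω (conjDer g D)

/-- For each `g ≠ 1` in `G` with a fixed point, of order `d`, at most `n - d - c` holomorphic
differential forms which are invariant under `g` are linearly independent at the generic point: the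
Albanese dimension of the quotient by `g` is at most `n - d - c`. -/
def AlbCond (n c : ℕ) (G : Subgroup (L ≃ₐ[k] L)) : Prop :=
  ∀ g ∈ G, g ≠ 1 → HasFix n g → ∀ (r : ℕ) (ω : Fin r → Derivation k L L →ₗ[L] L),
    (∀ i, HoloForm n (ω i) ∧ InvForm g (ω i)) → LinearIndependent L ω → r + orderOf g + c ≤ n

/-- the slots of `n` forms -/
def slots (n : ℕ) : (Σ _ : Fin n, Fin 1) ≃ Fin n := Equiv.sigmaUnique (Fin n) (fun _ => Fin 1)

/-- a form as a tensor -/
noncomputable def toTen (ω : Derivation k L L →ₗ[L] L) : Ten k L 1 where
  toFun D := ω (D 0)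
  map_update_add' := by
    intro _ D i x y
    have hi : i = 0 := Subsingleton.elim _ _
    subst hi
    simp
  map_update_smul' := by
    intro _ D i c x
    have hi : i = 0 := Subsingleton.elim _ _
    subst hi
    simp

/-- a tensor of degree one as a form -/
noncomputable def ofTen (τ : Ten k L 1) : Derivation k L L →ₗ[L] L where
  toFun D := τ (fun _ => D)
  map_add' x y := by
    have h := τ.map_update_add (fun _ => 0) 0 x y
    have e : ∀ z : Derivation k L L, Function.update (fun _ : Fin 1 => (0 : Derivation k L L)) 0 z =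
        fun _ => z := by
      intro z
      funext i
      have hi : i = 0 := Subsingleton.elim _ _
      subst hi
      simp
    rwa [e, e, e] at h
  map_smul' c x := by
    have h := τ.map_update_smul (fun _ => 0) 0 c x
    have e : ∀ z : Derivation k L L, Function.update (fun _ : Fin 1 => (0 : Derivation k L L)) 0 z =
        fun _ => z := by
      intro z
      funext i
      have hi : i = 0 := Subsingleton.elim _ _
      subst hi
      simp
    rwa [e, e] at h

theorem wedge_slots {n : ℕ} (τ : Fin n → Ten k L 1) (D : Fin n → Derivation k L L) :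
    wedge (slots n) τ D = (Matrix.of fun i j => ofTen (τ i) (D j)).det := by
  rw [Matrix.det_apply', wedge]
  have h1 : ∀ (s : Equiv.Perm (Fin n)), ∏ i, τ i (fun j => D (s (slots n ⟨i, j⟩))) =
      ∏ i, ofTen (τ i) (D (s i)) := by
    intro s
    exact Finset.prod_congr rfl fun i _ => rfl
  refine Fintype.sum_equiv (Equiv.inv (Equiv.Perm (Fin n))) _ _ fun s => ?_
  rw [h1, Equiv.inv_apply, Equiv.Perm.sign_inv]
  congr 1
  refine Fintype.prod_equiv s _ _ fun i => ?_
  have h2 : s⁻¹ (s i) = i := Equiv.symm_apply_apply s i
  rw [Matrix.of_apply, h2]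

theorem linInd_of_wedge {n : ℕ} {τ : Fin n → Ten k L 1} {D : Fin n → Derivation k L L}
    (h : wedge (slots n) τ D ≠ 0) : LinearIndependent L (fun i => ofTen (τ i)) := by
  classical
  rw [wedge_slots] at h
  rw [Fintype.linearIndependent_iff]
  intro c hc
  by_contra hcon
  push Not at hcon
  obtain ⟨i0, hi0⟩ := hcon
  apply h
  rw [← Matrix.exists_vecMul_eq_zero_iff]
  refine ⟨c, fun h0 => hi0 (congrFun h0 i0), ?_⟩
  funext j
  rw [Matrix.vecMul, dotProduct]
  have h1 := congrArg (fun f : Derivation k L L →ₗ[L] L => f (D j)) hc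
  simpa using h1

theorem rt_of_alb {n c : ℕ} {G : Subgroup (L ≃ₐ[k] L)} (h : AlbCond n c G) :
    RTCond (k := k) n c G (slots n) := by
  classical
  intro g hg h1 hfix ζ hζ a τ hτ hne
  obtain ⟨D, hD⟩ := hne
  have hli := linInd_of_wedge hD
  let S : Finset (Fin n) := Finset.univ.filter fun i => a i = 0
  let f : Fin S.card ≃ S := S.equivFin.symm
  have h2 := h g hg h1 hfix S.card (fun i => ofTen (τ (f i))) (fun i => ?_)
    (hli.comp (fun i => ((f i : S) : Fin n)) fun x y hxy => f.injective (Subtype.ext hxy))
  · have h3 : (Finset.univ.filter fun i => ¬ a i = 0).card ≤ ∑ i, a i := by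
      rw [Finset.card_eq_sum_ones, Finset.sum_filter]
      refine Finset.sum_le_sum fun i _ => ?_
      split_ifs with hi
      · omega
      · omega
    have h4 := Finset.card_filter_add_card_filter_not (s := (Finset.univ : Finset (Fin n)))
      (fun i => a i = 0)
    rw [Finset.card_univ, Fintype.card_fin] at h4
    change S.card + _ = n at h4
    omega
  · have hi : a (f i) = 0 := (Finset.mem_filter.1 (f i).2).2
    obtain ⟨-, h3, h4⟩ := hτ (f i)
    refine ⟨fun w hw D hD => h3 w hw _ fun _ => hD, fun D => ?_⟩
    have h5 := h4 (fun _ => D)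
    rw [hi, pow_zero, map_one, one_mul] at h5
    exact h5

theorem ofTen_toTen (ω : Derivation k L L →ₗ[L] L) : ofTen (toTen ω) = ω := rfl

theorem holo_toTen {n : ℕ} {ω : Derivation k L L →ₗ[L] L} (h : HoloForm n ω) :
    Holo n (toTen ω) := fun w hw D hD => h w hw (D 0) (hD 0)

/-- linearly independent forms have a nonzero exterior product -/
theorem exists_wedge [CharZero k] [CharZero L] {n : ℕ} (hn : Algebra.trdeg k L = (n : ℕ))
    (ω : Fin n → Derivation k L L →ₗ[L] L) (hω : LinearIndependent L ω) :
    ∃ D, wedge (slots n) (fun i => toTen (ω i)) D ≠ 0 := by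
  classical
  obtain ⟨y, hy⟩ := exists_fin_basis (k := k) n hn
  choose F hF using fun j => exists_dual y hy j
  refine ⟨F, ?_⟩
  rw [wedge_slots]
  intro h0
  obtain ⟨c, hc0, hc⟩ := Matrix.exists_vecMul_eq_zero_iff.2 h0
  apply hc0
  have h1 : ∑ i, c i • ω i = 0 := by
    ext D
    have h2 : D = ∑ j, D (y j) • F j := by
      have h3 : ∀ f, (D - ∑ j, D (y j) • F j) f = 0 := by
        refine der_zero _ y hy fun l => ?_
        rw [Derivation.sub_apply, Pool.Agent.W721.PG.EFF2.der_sum]
        have h3 : ∀ j, D (y j) * F j (y l) = if l = j then D (y j) else 0 := by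
          intro j
          rw [hF]
          split_ifs <;> simp
        rw [Finset.sum_congr rfl fun j _ => h3 j]
        simp
      ext f
      have h4 := h3 f
      rw [Derivation.sub_apply, sub_eq_zero] at h4
      exact h4
    rw [h2, LinearMap.zero_apply, map_sum]
    refine Finset.sum_eq_zero fun j _ => ?_
    rw [map_smul]
    have h4 := congrFun hc j
    rw [Matrix.vecMul, dotProduct] at h4
    have h5 : (∑ i, c i • ω i) (F j) = 0 := by
      rw [LinearMap.sum_apply]
      simp only [Matrix.of_apply, ofTen_toTen] at h4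
      simpa using h4
    rw [h5, smul_zero]
  have h2 := Fintype.linearIndependent_iff.1 hω c h1
  funext i
  exact h2 i

end

end Pool.Agent.T9h4.RQ
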