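import Pool.Agent.W619.Y.Stm6
import Pool.Agent.W619.PQ.Norm
import Mathlib.LinearAlgebra.Alternating.Basic

/-! Holomorphic covariant tensors on the models of a function field, their products, and the
condition of Reid-Tai type. -/

set_option autoImplicit false
set_option linter.overlappingInstances false
set_option linter.unusedSectionVars false

universe u v

open FF IntermediateField Pool.Agent.W619.PQ Pool.Agent.W619.PL Pool.Agent.W619.TW

namespace Pool.Agent.T9h4.RQ

section

variable (k : Type v) (L : Type u) [Field k] [Field L] [Algebra k L]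

/-- Rational covariant tensors of degree `r`: rational sections of the `r`-th tensor power of the
cotangent bundle. -/
abbrev Ten (r : ℕ) := MultilinearMap L (fun _ : Fin r => Derivation k L L) L

variable {k L}

/-- The tensor `τ` is holomorphic on the smooth projective models of `L`, which have dimension `n`:
it is regular along all divisors. -/
def Holo (n : ℕ) {r : ℕ} (τ : Ten k L r) : Prop :=
  ∀ w : Place k L, IsDivisorial w n → ∀ D : Fin r → Derivation k L L,
    (∀ j, ∀ f, w.Reg f → w.Reg (D j f)) → w.Reg (τ D)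

/-- The automorphism `g` multiplies `τ` by the constant `c`. -/
def Eigen {r : ℕ} (g : L ≃ₐ[k] L) (c : k) (τ : Ten k L r) : Prop :=
  ∀ D : Fin r → Derivation k L L, g (τ D) = algebraMap k L c * τ (fun j => conjDer g (D j))

/-- The exterior product of the tensors `τ i`, of degrees `p i`: the antisymmetrization of their
product. The slots of the tensors are numbered by `e`. -/
noncomputable def wedge {l n : ℕ} {p : Fin l → ℕ} (e : (Σ i, Fin (p i)) ≃ Fin n)
    (τ : ∀ i, Ten k L (p i)) (D : Fin n → Derivation k L L) : L :=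
  ∑ s : Equiv.Perm (Fin n), ((Equiv.Perm.sign s : ℤ) : L) *
    ∏ i, τ i (fun j => D (s (e ⟨i, j⟩)))

/-- `g` fixes a divisor pointwise on some model (this is the case if `g` has a fixed point on a smooth
projective model on which it acts). -/
def HasFix (n : ℕ) (g : L ≃ₐ[k] L) : Prop :=
  ∃ w : Place k L, IsDivisorial w n ∧ ∀ z, w.Reg z → g z - z = 0 ∨ 1 ≤ w.ord (g z - z)

/-- The condition of Reid-Tai type: let `g ≠ 1` in `G` of order `d` have a fixed point, let `g`
multiply the holomorphic tensors `τ i` of degrees `p i` by `ζ ^ a i`, where `ζ` is a primitive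
`d`-th root of unity and `0 ≤ a i < d`, and let the exterior product of the `τ i` be nonzero. Then
`∑ a i ≥ d + c`. -/
def RTCond (n c : ℕ) (G : Subgroup (L ≃ₐ[k] L)) {l : ℕ} {p : Fin l → ℕ}
    (e : (Σ i, Fin (p i)) ≃ Fin n) : Prop :=
  ∀ g ∈ G, g ≠ 1 → HasFix n g → ∀ ζ : k, IsPrimitiveRoot ζ (orderOf g) →
    ∀ (a : Fin l → ℕ) (τ : ∀ i, Ten k L (p i)),
      (∀ i, a i < orderOf g ∧ Holo n (τ i) ∧ Eigen g (ζ ^ a i) (τ i)) →
      (∃ D, wedge e τ D ≠ 0) → orderOf g + c ≤ ∑ i, a i

end

end Pool.Agent.T9h4.RQ
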