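import Pool.Agent.W619.Y.Main
import Pool.Agent.T9h4.RQ.Defs

/-! Descent of pluricanonical forms to a quotient, and algebraically independent ratios. -/

set_option autoImplicit false
set_option linter.overlappingInstances false
set_option linter.unusedSectionVars false

universe u v

open FF IntermediateField Pool.Agent.W619.PQ Pool.Agent.W619.PL Pool.Agent.W619.TW
  Pool.Agent.W603.LV Pool.Agent.W619.Y

namespace Pool.Agent.T9h4.RQ

section

variable {k : Type v} {L : Type u} [Field k] [Field L] [Algebra k L]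

/-- The form `Φ` of weight `M` is regular, and has order at least `M d` along the divisors
with inertia of order `d`, for logarithmic vector fields which commute with the inertia. -/
def Desc (G : Subgroup (L ≃ₐ[k] L)) (n M : ℕ) (Φ : (Fin n → Derivation k L L) → L) : Prop :=
  (∀ w : Place k L, IsDivisorial w n → RegularAt w n Φ) ∧
  ∀ (w : Place k L) (h : G) (ζ : k), IsDivisorial w n → h ≠ 1 → IsPrimitiveRoot ζ (orderOf h) →
    Inert w (h : L ≃ₐ[k] L) →
    (∀ z : L, z ≠ 0 → Ge w (w.ord z + 1)
      ((h : L ≃ₐ[k] L) z - algebraMap k L (ζ ^ (w.ord z)) * z)) →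
    ∀ D : Fin n → Derivation k L L, (∀ j, ∀ z, w.Reg (D j z / z)) →
      (∀ j z, (h : L ≃ₐ[k] L) (D j z) = D j ((h : L ≃ₐ[k] L) z)) →
      Ge w (M * orderOf h) (Φ D)

/-- change of the vector fields -/
theorem pluri_change {n M : ℕ} {Φ : (Fin n → Derivation k L L) → L}
    (hΦ : IsPluriForm k L n M Φ) (D' : Fin n → Derivation k L L) (j0 : Fin n) (c u : Fin n → L)
    (hc : c j0 = 0) :
    Φ (fun j => u j • (D' j + c j • D' j0)) = (∏ j, u j) ^ M * Φ D' := by
  classical
  let A : Matrix (Fin n) (Fin n) L := Matrix.of fun i j => u i * ((1 : Matrix (Fin n) (Fin n) L) i j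
    + c i * (1 : Matrix (Fin n) (Fin n) L) j0 j)
  have hA : A.det = ∏ j, u j := by
    have h1 : (Matrix.of fun i j => (1 : Matrix (Fin n) (Fin n) L) i j
        + c i * (1 : Matrix (Fin n) (Fin n) L) j0 j).det = (1 : Matrix (Fin n) (Fin n) L).det :=
      Matrix.det_eq_of_forall_row_eq_smul_add_const c j0 hc fun i j => rfl
    rw [Matrix.det_one] at h1
    have h2 := Matrix.det_mul_column u (Matrix.of fun i j => (1 : Matrix (Fin n) (Fin n) L) i j
        + c i * (1 : Matrix (Fin n) (Fin n) L) j0 j)
    rw [h1, mul_one] at h2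
    exact h2
  have h3 : (fun j => u j • (D' j + c j • D' j0)) = fun i => ∑ j, A i j • D' j := by
    funext i
    have h4 : ∀ j, A i j • D' j = (if i = j then u i • D' j else 0) +
        (if j0 = j then (u i * c i) • D' j else 0) := by
      intro j
      simp only [A, Matrix.of_apply, Matrix.one_apply]
      by_cases hi : i = j <;> by_cases hj : j0 = j <;> simp [hi, hj, mul_add, add_smul]
    rw [Finset.sum_congr rfl fun j _ => h4 j, Finset.sum_add_distrib]
    simp only [Finset.sum_ite_eq, Finset.mem_univ, if_true]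
    rw [smul_add, smul_smul]
  rw [h3, hΦ, hA]

end

section

variable {k : Type v} {L : Type u} [Field k] [CharZero k] [IsAlgClosed k] [Field L] [Algebra k L]

theorem reg_core (n M : ℕ) (G : Subgroup (L ≃ₐ[k] L)) [Finite G]
    (htr : Algebra.trdeg k L = (n : ℕ)) {Φ : (Fin n → Derivation k L L) → L}
    (hΦ : IsPluriForm k L n M Φ) (hd : Desc G n M Φ)
    (v : Place k (fixedField G)) (w : Place k L) (e : ℕ) (hwv : Over w v e)
    (hdiv : IsDivisorial w n)
    (h : G) (ζ : k) (hord : orderOf h = e) (hζ : IsPrimitiveRoot ζ e)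
    (hin : Inert w (h : L ≃ₐ[k] L))
    (hgen : ∀ z : L, z ≠ 0 → Ge w (w.ord z + 1)
        ((h : L ≃ₐ[k] L) z - algebraMap k L (ζ ^ (w.ord z)) * z))
    (D : Fin n → Derivation k (fixedField G) (fixedField G))
    (D' : Fin n → Derivation k L L)
    (hD : ∀ j, Pres v (D j)) (hDD : ∀ j (f : fixedField G), D' j (f : L) = (D j f : L)) :
    Ge w 0 (Φ D') := by
  classical
  have hGal : IsGaloisGroup G (fixedField G) L := isGaloisGroup_fixed G
  have hfd : FiniteDimensional (fixedField G) L :=
    IsGaloisGroup.finiteDimensional G (fixedField G) L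
  have halg : Algebra.IsAlgebraic (fixedField G) L := inferInstance
  have htrK : Algebra.trdeg k (fixedField G) = (n : ℕ) := by
    have h5 := trdeg_add_eq k (fixedField G) (A := L)
    rw [trdeg_eq_zero (R := fixedField G) (A := L), add_zero] at h5
    rw [h5, htr]
  have hcomm : ∀ (E : Derivation k (fixedField G) (fixedField G)) (E' : Derivation k L L),
      (∀ f : fixedField G, E' (f : L) = (E f : L)) →
      ∀ (g : G) z, (g : L ≃ₐ[k] L) (E' z) = E' ((g : L ≃ₐ[k] L) z) := by
    intro E E' hE g z
    obtain ⟨E0, hE0, huniq, hg⟩ := pEXT k (fixedField G) L n htrK E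
    have h5 : E' = E0 := huniq E' hE
    rw [h5]
    exact hg g (fun f => f.2 g) z
  by_cases he : e = 1
  · have hpres : ∀ j, ∀ z : L, w.Reg z → w.Reg (D' j z) := by
      intro j
      refine pPRES k (fixedField G) L v w e hwv (D' j) ?_ (Or.inl he)
      intro f hf
      have h5 : D' j (algebraMap (fixedField G) L f) = algebraMap (fixedField G) L (D j f) :=
        hDD j f
      rw [h5]
      exact hwv.reg.2 (hD j f hf)
    exact hd.1 w hdiv D' hpres
  have hh1 : h ≠ 1 := by
    intro h1
    rw [h1, orderOf_one] at hord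
    exact he hord.symm
  obtain ⟨s, hs0, hs⟩ := v.surj
  have hsL : algebraMap (fixedField G) L s ≠ 0 := by simpa using hs0
  have hlogcase : ∀ (E : Fin n → Derivation k (fixedField G) (fixedField G))
      (E' : Fin n → Derivation k L L), (∀ j, Pres v (E j)) →
      (∀ j (f : fixedField G), E' j (f : L) = (E j f : L)) →
      (∀ j, v.Reg (E j s / s)) → Ge w (M * e) (Φ E') := by
    intro E E' hE hEE hEs
    have h4 := hd.2 w h ζ hdiv hh1 (by rw [hord]; exact hζ) hin hgen E' ?_ ?_
    · rw [hord] at h4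
      exact h4
    · intro j
      refine pLOG k (fixedField G) L v w e hwv (E' j) ?_
      intro f
      have h5 : v.Reg (E j f / f) := log_of_pres v (E j) (hE j) hs0 hs (hEs j) f
      have h6 : E' j (algebraMap (fixedField G) L f) / algebraMap (fixedField G) L f =
          algebraMap (fixedField G) L (E j f / f) := by
        rw [map_div₀]
        congr 1
        exact hEE j f
      rw [h6]
      exact hwv.reg.2 h5
    · intro j z
      exact hcomm (E j) (E' j) (hEE j) h z
  by_cases hlog : ∀ j, v.Reg (D j s / s)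
  · exact (hlogcase D D' hD hDD hlog).mono (by positivity)
  push Not at hlog
  obtain ⟨j0, hj0⟩ := hlog
  have h5 : v.Reg (D j0 s) := hD j0 s (Or.inr (by omega))
  have h6 : D j0 s ≠ 0 := by
    intro h6
    apply hj0
    left
    rw [h6, zero_div]
  have h7 : v.ord (D j0 s) = 0 := by
    have h8 : 0 ≤ v.ord (D j0 s) := h5.resolve_left h6
    by_contra h9
    apply hj0
    right
    rw [v.ord_div h6 hs0, hs]
    omega
  let c : Fin n → fixedField G := fun j => if j = j0 then 0 else -(D j s / D j0 s)
  let u : Fin n → fixedField G := fun j => if j = j0 then s else 1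
  let E : Fin n → Derivation k (fixedField G) (fixedField G) := fun j =>
    u j • (D j + c j • D j0)
  let E' : Fin n → Derivation k L L := fun j =>
    (u j : L) • (D' j + (c j : L) • D' j0)
  have hinv : Ge v 0 (D j0 s)⁻¹ := Or.inr (by rw [v.ord_inv, h7]; simp)
  have hc : ∀ j, Ge v 0 (c j) := by
    intro j
    by_cases hj : j = j0
    · left; simp [c, hj]
    · simp only [c, hj, if_false]
      have h8 : Ge v 0 (D j s) := hD j s (Or.inr (by omega))
      rw [div_eq_mul_inv]
      simpa using (h8.mul hinv).neg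
  have hu : ∀ j, Ge v 0 (u j) := by
    intro j
    by_cases hj : j = j0
    · simp only [u, hj, if_true]; exact Or.inr (by omega)
    · simp only [u, hj, if_false]; exact Ge.one
  have hE : ∀ j, Pres v (E j) := by
    intro j f hf
    change Ge v 0 (u j * (D j f + c j * D j0 f))
    have h8 : Ge v 0 (D j f) := hD j f hf
    have h9 : Ge v 0 (D j0 f) := hD j0 f hf
    have h10 := (hc j).mul h9
    rw [add_zero] at h10
    simpa using (hu j).mul (h8.add h10)
  have hEE : ∀ j (f : fixedField G), E' j (f : L) = (E j f : L) := by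
    intro j f
    change (u j : L) * (D' j (f : L) + (c j : L) * D' j0 (f : L)) = _
    rw [hDD, hDD]
    rfl
  have hEs : ∀ j, v.Reg (E j s / s) := by
    intro j
    change v.Reg (u j * (D j s + c j * D j0 s) / s)
    by_cases hj : j = j0
    · have h8 : u j * (D j s + c j * D j0 s) / s = D j0 s := by
        simp only [u, c, hj, if_true, zero_mul, add_zero]
        field_simp
      rw [h8]
      exact h5
    · have h8 : u j * (D j s + c j * D j0 s) / s = 0 := by
        simp only [u, c, hj, if_false]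
        field_simp
        ring
      rw [h8]
      exact Or.inl rfl
  have hdet : Φ E' = (s : L) ^ M * Φ D' := by
    have h8 := pluri_change hΦ D' j0 (fun j => (c j : L)) (fun j => (u j : L)) (by simp [c])
    have h9 : ∏ j, (u j : L) = (s : L) := by
      have h10 : ∀ j, (u j : L) = if j = j0 then (s : L) else 1 := by
        intro j
        simp only [u]
        split_ifs <;> rfl
      rw [Finset.prod_congr rfl fun j _ => h10 j]
      simp
    rw [h9] at h8
    exact h8
  have h10 := hlogcase E E' hE hEE hEs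
  rw [hdet] at h10
  have hsL' : (s : L) ≠ 0 := hsL
  have hsord : w.ord (s : L) = e := by
    have h12 := hwv.2 s
    rw [hs, mul_one] at h12
    exact h12
  refine Ge.of_mul' (P := w) (N := 0) (m := M * e) (pow_ne_zero M hsL') ?_ ?_
  · rw [w.ord_pow, hsord]
  · rw [zero_add]; exact h10

/-- the estimate at a place `v` of the quotient -/
theorem reg_down (n M : ℕ) (G : Subgroup (L ≃ₐ[k] L)) [Finite G]
    (htr : Algebra.trdeg k L = (n : ℕ)) (v : Place k (fixedField G)) (hv : IsDivisorial v n) :
    ∃ (w : Place k L) (e : ℕ), Over w v e ∧ ∀ (Φ : (Fin n → Derivation k L L) → L),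
      IsPluriForm k L n M Φ → Desc G n M Φ →
      ∀ (D : Fin n → Derivation k (fixedField G) (fixedField G))
        (D' : Fin n → Derivation k L L), (∀ j, Pres v (D j)) →
        (∀ j (f : fixedField G), D' j (f : L) = (D j f : L)) →
        ∀ g : G, Ge w 0 ((g : L ≃ₐ[k] L) (Φ D')) := by
  obtain ⟨w, e, I, hwv, hIe, hI⟩ := exists_inertia G v
  obtain ⟨g0, hgI, hgord, ζ, hζ, hgen⟩ := exists_rot_generator w I hI
  rw [hIe] at hgord hζ
  rw [Subgroup.orderOf_coe] at hgord
  refine ⟨w, e, hwv, ?_⟩
  intro Φ hΦ hd D D' hD hDD g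
  rw [← Pool.Agent.W140.PG.REG2.ge_comp]
  have hwv' := Pool.Agent.W140.PG.REG2.over_comp hwv g
  have hdiv : IsDivisorial (w.comp (g : L ≃ₐ[k] L)) n := Pool.Agent.W140.PG.REG2.div_up hwv' hv
  have h7 : (g : L ≃ₐ[k] L) * ((g⁻¹ * g0 * g : G) : L ≃ₐ[k] L) =
      (g0 : L ≃ₐ[k] L) * (g : L ≃ₐ[k] L) := by
    push_cast
    group
  have h6 : ∀ z, (g : L ≃ₐ[k] L) (((g⁻¹ * g0 * g : G) : L ≃ₐ[k] L) z) =
      (g0 : L ≃ₐ[k] L) ((g : L ≃ₐ[k] L) z) := fun z =>
    congrArg (fun f : L ≃ₐ[k] L => f z) h7
  refine reg_core n M G htr hΦ hd v (w.comp (g : L ≃ₐ[k] L)) e hwv' hdiv (g⁻¹ * g0 * g) ζ ?_ hζ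
    ?_ ?_ D D' hD hDD
  · rw [← hgord]
    have h5 : g⁻¹ * g0 * g = MulAut.conj g⁻¹ g0 := by
      rw [MulAut.conj_apply, inv_inv]
    rw [h5]
    exact MulEquiv.orderOf_eq (MulAut.conj g⁻¹) g0
  · intro z hz
    rw [Pool.Agent.W140.PG.REG2.ge_comp] at hz ⊢
    rw [map_sub, h6]
    exact hI g0 hgI _ hz
  · intro z hz
    rw [Pool.Agent.W140.PG.REG2.ge_comp, Place.comp_ord, map_sub, map_mul, AlgEquiv.commutes]
    have h5 := hgen ((g : L ≃ₐ[k] L) z) (by simpa using hz)
    rw [h6]
    exact h5

theorem der_nonzero_of_basis {n M : ℕ} {Φ : (Fin n → Derivation k L L) → L}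
    (hΦ : IsPluriForm k L n M Φ) {E : Fin n → Derivation k L L} (hE : Φ E ≠ 0)
    {x : Fin n → L} (hx : IsTranscendenceBasis k x) {D : Fin n → Derivation k L L}
    (hD : (Matrix.of fun i j => D j (x i)).det ≠ 0) : Φ D ≠ 0 := by
  classical
  -- `E = A D`
  let X : Matrix (Fin n) (Fin n) L := Matrix.of fun i j => D i (x j)
  let Y : Matrix (Fin n) (Fin n) L := Matrix.of fun i j => E i (x j)
  have hX : X.det ≠ 0 := by
    have : X = (Matrix.of fun i j => D j (x i)).transpose := by
      ext i j; rfl
    rw [this, Matrix.det_transpose]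
    exact hD
  let A := Y * X⁻¹
  have hAX : A * X = Y := by
    rw [Matrix.mul_assoc, Matrix.nonsing_inv_mul _ (isUnit_iff_ne_zero.2 hX), mul_one]
  have hEA : E = fun i => ∑ j, A i j • D j := by
    funext i
    have h1 : ∀ f, (E i - ∑ j, A i j • D j) f = 0 := by
      refine der_zero _ x hx fun l => ?_
      rw [Derivation.sub_apply, Pool.Agent.W721.PG.EFF2.der_sum]
      have h2 := congrFun (congrFun hAX i) l
      rw [Matrix.mul_apply] at h2
      change ∑ j, A i j * D j (x l) = E i (x l) at h2
      rw [h2, sub_self]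
    ext f
    have h3 := h1 f
    rw [Derivation.sub_apply, sub_eq_zero] at h3
    exact h3
  intro h0
  apply hE
  rw [hEA, hΦ, h0, mul_zero]

open scoped Classical in
/-- **Descent.** Forms with algebraically independent ratios which satisfy `Desc` give as many
on the quotient. -/
theorem kod_down (n M a : ℕ) (hM : 1 ≤ M) (hn : Algebra.trdeg k L = (n : ℕ))
    (G : Subgroup (L ≃ₐ[k] L)) [Finite G]
    (Φ : Fin (a + 1) → (Fin n → Derivation k L L) → L)
    (hΦ : ∀ l, IsPluriForm k L n M (Φ l)) (hd : ∀ l, Desc G n M (Φ l))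
    (hne : ∃ D, (∀ l, Φ l D ≠ 0) ∧
      AlgebraicIndependent k (fun l : Fin a => Φ l.succ D / Φ 0 D)) :
    KodTr k (fixedField G) n a := by
  have halgK := Pool.Agent.W721.PG.EFF2.alg_fixed G
  have := Fintype.ofFinite G
  obtain ⟨E, hE0, hEi⟩ := hne
  obtain ⟨hnK, z, hz⟩ := Pool.Agent.W721.PG.EFF2.exists_basis (fixedField G) n hn
  have hbasis : IsTranscendenceBasis k (fun i => (z i : L)) := hz.algebraMap_comp
  choose ext hext hext2 hext3 using pEXT k (fixedField G) L n hnK
  obtain ⟨D0, hD0⟩ := Pool.Agent.W721.PG.EFF2.exists_det (fixedField G) n z hz _ hbasis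
    ext hext
  have hfix : ∀ (g : G) (f : fixedField G), (g : L ≃ₐ[k] L) (algebraMap (fixedField G) L f) =
      algebraMap (fixedField G) L f := fun g f => f.2 g
  let V : (Fin n → Derivation k (fixedField G) (fixedField G)) → Fin (a + 1) → L :=
    fun D l => Φ l (fun j => ext (D j))
  have hV0 : ∀ l, V D0 l ≠ 0 := fun l => der_nonzero_of_basis (hΦ l) (hE0 l) hbasis hD0
  -- the ratios do not depend on the vector fields
  have hVr : ∀ l : Fin a, V D0 l.succ / V D0 0 = Φ l.succ E / Φ 0 E := by
    intro l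
    let X : Matrix (Fin n) (Fin n) L := Matrix.of fun i j => ext (D0 i) (z j : L)
    let Y : Matrix (Fin n) (Fin n) L := Matrix.of fun i j => E i (z j : L)
    have hX : X.det ≠ 0 := by
      have : X = (Matrix.of fun i j => ext (D0 j) (z i : L)).transpose := by
        ext i j; rfl
      rw [this, Matrix.det_transpose]
      exact hD0
    let A := Y * X⁻¹
    have hAX : A * X = Y := by
      rw [Matrix.mul_assoc, Matrix.nonsing_inv_mul _ (isUnit_iff_ne_zero.2 hX), mul_one]
    have hEA : E = fun i => ∑ j, A i j • ext (D0 j) := by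
      funext i
      have h1 : ∀ f, (E i - ∑ j, A i j • ext (D0 j)) f = 0 := by
        refine der_zero _ _ hbasis fun l => ?_
        rw [Derivation.sub_apply, Pool.Agent.W721.PG.EFF2.der_sum]
        have h2 := congrFun (congrFun hAX i) l
        rw [Matrix.mul_apply] at h2
        change ∑ j, A i j * ext (D0 j) (z l : L) = E i (z l : L) at h2
        rw [h2, sub_self]
      ext f
      have h3 := h1 f
      rw [Derivation.sub_apply, sub_eq_zero] at h3
      exact h3
    have h1 : ∀ l, Φ l E = A.det ^ M * V D0 l := by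
      intro l
      rw [hEA, hΦ l]
    have hA0 : A.det ^ M ≠ 0 := by
      intro h0
      apply hE0 0
      rw [h1, h0, zero_mul]
    rw [h1, h1, mul_div_mul_left _ _ hA0]
  have hVlin : ∀ (X : Matrix (Fin n) (Fin n) (fixedField G))
      (D : Fin n → Derivation k (fixedField G) (fixedField G)) l,
      V (fun i => ∑ j, X i j • D j) l = V D l * (algebraMap (fixedField G) L X.det) ^ M := by
    intro X D l
    have e1 : ∀ j, ext (∑ l, X j l • D l) = ∑ l, (algebraMap (fixedField G) L (X j l)) •
        ext (D l) := by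
      intro j
      symm
      apply hext2
      intro f
      rw [Pool.Agent.W721.PG.EFF2.der_sum, Pool.Agent.W721.PG.EFF2.der_sum, map_sum]
      refine Finset.sum_congr rfl fun l _ => ?_
      rw [hext, map_mul]
    have e3 : (X.map (algebraMap (fixedField G) L)).det = algebraMap (fixedField G) L X.det := by
      rw [RingHom.map_det]
      rfl
    change Φ l (fun j => ext (∑ l, X j l • D l)) = _
    have e4 : (fun j => ext (∑ l, X j l • D l)) =
        fun j => ∑ l, (X.map (algebraMap (fixedField G) L)) j l • ext (D l) := by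
      funext j
      rw [e1]
      rfl
    rw [e4, hΦ l, e3, mul_comm]
  -- symmetric functions
  obtain ⟨R, t, r, q, hR, hrq, hs0, hsi⟩ := Pool.Agent.W513.PG.main k L G 1 a
    (fun g l => (g : L ≃ₐ[k] L) (V D0 l)) (fun l => by
      change V D0 l ≠ 0
      exact hV0 l) (by
      have e1 : (fun l : Fin a => ((1 : G) : L ≃ₐ[k] L) (V D0 l.succ) /
          ((1 : G) : L ≃ₐ[k] L) (V D0 0)) = fun l : Fin a => Φ l.succ E / Φ 0 E := by
        funext l
        exact hVr l
      rw [e1]
      exact hEi)
  let s : (Fin n → Derivation k (fixedField G) (fixedField G)) → Fin (a + 1) → L :=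
    fun D j => esy (fun g : G => (g : L ≃ₐ[k] L) (V D (t j))) (r j) ^ q j
  have hsG : ∀ D j (g : G), (g : L ≃ₐ[k] L) (s D j) = s D j := by
    intro D j g
    change (g : L ≃ₐ[k] L) (esy (fun g : G => (g : L ≃ₐ[k] L) (V D (t j))) (r j) ^ q j) = _
    rw [map_pow]
    congr 1
    exact Pool.Agent.W672.PG.esy_inv _ (g : L ≃ₐ[k] L) (Equiv.mulLeft g) (fun i => rfl) _
  have hsA : ∀ (X : Matrix (Fin n) (Fin n) (fixedField G))
      (D : Fin n → Derivation k (fixedField G) (fixedField G)) j,
      s (fun i => ∑ j, X i j • D j) j = (algebraMap (fixedField G) L X.det) ^ (M * R) * s D j := by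
    intro X D j
    have e1 : (fun g : G => (g : L ≃ₐ[k] L) (V (fun i => ∑ j, X i j • D j) (t j))) =
        fun g : G => (g : L ≃ₐ[k] L) (V D (t j)) * (algebraMap (fixedField G) L X.det) ^ M := by
      funext g
      rw [hVlin, map_mul, map_pow, hfix]
    change esy (fun g : G => (g : L ≃ₐ[k] L) (V (fun i => ∑ j, X i j • D j) (t j))) (r j) ^ q j =
      (algebraMap (fixedField G) L X.det) ^ (M * R) *
        esy (fun g : G => (g : L ≃ₐ[k] L) (V D (t j))) (r j) ^ q j
    rw [e1, Pool.Agent.W672.PG.esy_mul, mul_pow, ← pow_mul, ← pow_mul, hrq j]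
  refine ⟨M * R, Nat.mul_pos hM hR, fun j D => ⟨s D j, fun g => hsG D j g⟩, fun l => ⟨?_, ?_, ?_⟩,
    D0, fun l h0 => ?_, ?_⟩
  · intro X D
    apply Subtype.ext
    change s (fun i => ∑ j, X i j • D j) l =
      algebraMap (fixedField G) L (X.det ^ (M * R) * ⟨s D l, fun g => hsG D l g⟩)
    rw [hsA, map_mul, map_pow]
    rfl
  · intro v hv _ D hD
    apply Pool.Agent.W721.PG.EFF2.dom_of_reg
    obtain ⟨w, ee, hwv, hreg⟩ := reg_down n M G hn v hv
    rw [← hwv.reg]
    have hVreg : ∀ l (g : G), Ge w 0 ((g : L ≃ₐ[k] L) (V D l)) := fun l g =>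
      hreg (Φ l) (hΦ l) (hd l) D (fun j => ext (D j)) hD (fun j f => hext (D j) f) g
    exact Pool.Agent.W672.PG.ge_pow0 (Pool.Agent.W672.PG.ge_esy _ (fun g => hVreg (t l) g) _) _
  · intro v _ hv
    exact hv.elim
  · exact pow_ne_zero _ (hs0 l) (congrArg Subtype.val h0)
  · have hsi' : AlgebraicIndependent k fun l : Fin a =>
        ((⟨s D0 l.succ, fun g => hsG D0 l.succ g⟩ / ⟨s D0 0, fun g => hsG D0 0 g⟩ :
          fixedField G) : L) := hsi
    exact (AlgHom.algebraicIndependent_iff (fixedField G).val (Subtype.val_injective)).1 hsi'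

end

end Pool.Agent.T9h4.RQ
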