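import Pool.Agent.T9h4.RQ.Defs
import Mathlib.LinearAlgebra.Determinant

/-! The exterior product of tensors. -/

set_option autoImplicit false
set_option linter.overlappingInstances false
set_option linter.unusedSectionVars false

universe u v

open FF IntermediateField Pool.Agent.W619.PQ Pool.Agent.W619.PL Pool.Agent.W619.TW
  Pool.Agent.W603.LV

namespace Pool.Agent.T9h4.RQ

section

variable {k : Type v} {L : Type u} [Field k] [Field L] [Algebra k L]

open Function in
/-- the product of tensors -/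
noncomputable def prodTen {l n : ℕ} {p : Fin l → ℕ} (e : (Σ i, Fin (p i)) ≃ Fin n)
    (τ : ∀ i, Ten k L (p i)) : MultilinearMap L (fun _ : Fin n => Derivation k L L) L where
  toFun D := ∏ i, τ i (fun j => D (e ⟨i, j⟩))
  map_update_add' := by
    intro hdec D s x y
    have hd : hdec = instDecidableEqFin n := Subsingleton.elim _ _
    subst hd
    obtain ⟨⟨i0, j0⟩, rfl⟩ := e.surjective s
    have h1 : ∀ (z : Derivation k L L) (i : Fin l), i ≠ i0 →
        (fun j => update D (e ⟨i0, j0⟩) z (e ⟨i, j⟩)) = fun j => D (e ⟨i, j⟩) := by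
      intro z i hi
      funext j
      rw [update_of_ne]
      intro h
      exact hi (congrArg Sigma.fst (e.injective h))
    have h2 : ∀ z : Derivation k L L, (fun j => update D (e ⟨i0, j0⟩) z (e ⟨i0, j⟩)) =
        update (fun j => D (e ⟨i0, j⟩)) j0 z := by
      intro z
      funext j
      by_cases hj : j = j0
      · subst hj; simp
      · rw [update_of_ne hj, update_of_ne]
        intro h
        have := e.injective h
        simp only [Sigma.mk.injEq, heq_eq_eq, true_and] at this
        exact hj this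
    have h3 : ∀ z : Derivation k L L, ∏ i, τ i (fun j => update D (e ⟨i0, j0⟩) z (e ⟨i, j⟩)) =
        τ i0 (update (fun j => D (e ⟨i0, j⟩)) j0 z) *
          ∏ i ∈ Finset.univ.erase i0, τ i (fun j => D (e ⟨i, j⟩)) := by
      intro z
      rw [← Finset.mul_prod_erase Finset.univ _ (Finset.mem_univ i0), h2 z]
      congr 1
      exact Finset.prod_congr rfl fun i hi => by rw [h1 z i (Finset.ne_of_mem_erase hi)]
    rw [h3, h3, h3, MultilinearMap.map_update_add, add_mul]
  map_update_smul' := by
    intro hdec D s c x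
    have hd : hdec = instDecidableEqFin n := Subsingleton.elim _ _
    subst hd
    obtain ⟨⟨i0, j0⟩, rfl⟩ := e.surjective s
    have h1 : ∀ (z : Derivation k L L) (i : Fin l), i ≠ i0 →
        (fun j => update D (e ⟨i0, j0⟩) z (e ⟨i, j⟩)) = fun j => D (e ⟨i, j⟩) := by
      intro z i hi
      funext j
      rw [update_of_ne]
      intro h
      exact hi (congrArg Sigma.fst (e.injective h))
    have h2 : ∀ z : Derivation k L L, (fun j => update D (e ⟨i0, j0⟩) z (e ⟨i0, j⟩)) =
        update (fun j => D (e ⟨i0, j⟩)) j0 z := by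
      intro z
      funext j
      by_cases hj : j = j0
      · subst hj; simp
      · rw [update_of_ne hj, update_of_ne]
        intro h
        have := e.injective h
        simp only [Sigma.mk.injEq, heq_eq_eq, true_and] at this
        exact hj this
    have h3 : ∀ z : Derivation k L L, ∏ i, τ i (fun j => update D (e ⟨i0, j0⟩) z (e ⟨i, j⟩)) =
        τ i0 (update (fun j => D (e ⟨i0, j⟩)) j0 z) *
          ∏ i ∈ Finset.univ.erase i0, τ i (fun j => D (e ⟨i, j⟩)) := by
      intro z
      rw [← Finset.mul_prod_erase Finset.univ _ (Finset.mem_univ i0), h2 z]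
      congr 1
      exact Finset.prod_congr rfl fun i hi => by rw [h1 z i (Finset.ne_of_mem_erase hi)]
    rw [h3, h3, MultilinearMap.map_update_smul, smul_eq_mul, smul_eq_mul, mul_assoc]

theorem wedge_eq {l n : ℕ} {p : Fin l → ℕ} (e : (Σ i, Fin (p i)) ≃ Fin n)
    (τ : ∀ i, Ten k L (p i)) (D : Fin n → Derivation k L L) :
    wedge e τ D = MultilinearMap.alternatization (prodTen e τ) D := by
  rw [MultilinearMap.alternatization_apply]
  unfold wedge
  refine Finset.sum_congr rfl fun s _ => ?_
  rw [MultilinearMap.domDomCongr_apply, Units.smul_def, zsmul_eq_mul]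
  rfl

/-- alternating forms of top degree -/
theorem alt_det {n : ℕ} {M : Type*} [AddCommGroup M] [Module L M] (f : M [⋀^Fin n]→ₗ[L] L)
    (A : Matrix (Fin n) (Fin n) L) (D : Fin n → M) :
    f (fun i => ∑ j, A i j • D j) = A.det * f D := by
  classical
  let φ : (Fin n → L) →ₗ[L] M := Fintype.linearCombination L D
  have hφ : ∀ x : Fin n → L, φ x = ∑ j, x j • D j := fun x =>
    Fintype.linearCombination_apply L D x
  have h1 := AlternatingMap.eq_smul_basis_det (Pi.basisFun L (Fin n)) (f.compLinearMap φ)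
  let A' : Fin n → Fin n → L := fun i j => A i j
  have h2 : (f.compLinearMap φ) A' =
      ((f.compLinearMap φ) (Pi.basisFun L (Fin n)) • (Pi.basisFun L (Fin n)).det) A' :=
    congrArg (fun g : (Fin n → L) [⋀^Fin n]→ₗ[L] L => g A') h1
  change f (fun i => φ (A' i)) =
    f (fun i => φ (Pi.basisFun L (Fin n) i)) * (Pi.basisFun L (Fin n)).det A' at h2
  have h5 : (Pi.basisFun L (Fin n)).det A' = A.det := by
    have := Pi.basisFun_det_apply (R := L) (ι := Fin n) A'
    exact this
  have h3 : (fun i => φ ((Pi.basisFun L (Fin n)) i)) = D := by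
    funext i
    rw [Pi.basisFun_apply, hφ]
    simp [Pi.single_apply]
  have h4 : (fun i => φ (A' i)) = fun i => ∑ j, A i j • D j := by
    funext i
    exact hφ _
  rw [h3, h4, h5] at h2
  rw [h2, mul_comm]

theorem wedge_pluri {l n : ℕ} {p : Fin l → ℕ} (e : (Σ i, Fin (p i)) ≃ Fin n)
    (τ : ∀ i, Ten k L (p i)) : IsPluriForm k L n 1 (wedge e τ) := by
  intro A D
  rw [wedge_eq, wedge_eq, pow_one]
  exact alt_det _ A D

theorem pluri_mul {n m m' : ℕ} {Φ Ψ : (Fin n → Derivation k L L) → L}
    (h : IsPluriForm k L n m Φ) (h' : IsPluriForm k L n m' Ψ) :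
    IsPluriForm k L n (m + m') (fun D => Φ D * Ψ D) := by
  intro A D
  change Φ _ * Ψ _ = _
  rw [h, h', pow_add]
  ring

theorem pluri_pow {n m : ℕ} {Φ : (Fin n → Derivation k L L) → L}
    (h : IsPluriForm k L n m Φ) (q : ℕ) :
    IsPluriForm k L n (m * q) (fun D => Φ D ^ q) := by
  intro A D
  change Φ _ ^ q = _
  rw [h, mul_pow, ← pow_mul]

/-! ### the action of an automorphism on tensors -/

theorem cd_apply (g : L ≃ₐ[k] L) (D : Derivation k L L) (z : L) :
    conjDer g D z = g (D (g.symm z)) := rfl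

theorem conjDer_add (g : L ≃ₐ[k] L) (D D' : Derivation k L L) :
    conjDer g (D + D') = conjDer g D + conjDer g D' := by
  ext z
  rw [Derivation.add_apply, cd_apply, cd_apply, cd_apply, Derivation.add_apply,
    map_add]

theorem conjDer_smul (g : L ≃ₐ[k] L) (c : L) (D : Derivation k L L) :
    conjDer g (c • D) = g c • conjDer g D := by
  ext z
  rw [Derivation.smul_apply, cd_apply, cd_apply, Derivation.smul_apply, smul_eq_mul,
    smul_eq_mul, map_mul]

theorem conjDer_mul (g h : L ≃ₐ[k] L) (D : Derivation k L L) :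
    conjDer (g * h) D = conjDer g (conjDer h D) := by
  ext z
  rfl

theorem conjDer_one (D : Derivation k L L) : conjDer (1 : L ≃ₐ[k] L) D = D := by
  ext z
  rfl

theorem conjDer_symm (g : L ≃ₐ[k] L) (D : Derivation k L L) : conjDer g.symm (conjDer g D) = D := by
  ext z
  rw [cd_apply, cd_apply]
  simp

/-- the tensor `g τ` -/
noncomputable def act (g : L ≃ₐ[k] L) {r : ℕ} (τ : Ten k L r) : Ten k L r where
  toFun D := g (τ (fun j => conjDer g.symm (D j)))
  map_update_add' := by
    intro hdec D s x y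
    have h1 : ∀ z : Derivation k L L, (fun j => conjDer g.symm (Function.update D s z j)) =
        Function.update (fun j => conjDer g.symm (D j)) s (conjDer g.symm z) := by
      intro z
      funext j
      by_cases hj : j = s
      · subst hj; simp
      · rw [Function.update_of_ne hj, Function.update_of_ne hj]
    rw [h1, h1, h1, conjDer_add, MultilinearMap.map_update_add, map_add]
  map_update_smul' := by
    intro hdec D s c x
    have h1 : ∀ z : Derivation k L L, (fun j => conjDer g.symm (Function.update D s z j)) =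
        Function.update (fun j => conjDer g.symm (D j)) s (conjDer g.symm z) := by
      intro z
      funext j
      by_cases hj : j = s
      · subst hj; simp
      · rw [Function.update_of_ne hj, Function.update_of_ne hj]
    rw [h1, h1, conjDer_smul, MultilinearMap.map_update_smul, smul_eq_mul, map_mul, smul_eq_mul,
      AlgEquiv.apply_symm_apply]

theorem act_apply (g : L ≃ₐ[k] L) {r : ℕ} (τ : Ten k L r) (D : Fin r → Derivation k L L) :
    act g τ D = g (τ (fun j => conjDer g.symm (D j))) := rfl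

theorem act_one {r : ℕ} (τ : Ten k L r) : act 1 τ = τ := by
  ext D
  rw [act_apply]
  have h : (fun j => conjDer (1 : L ≃ₐ[k] L).symm (D j)) = D := by
    funext j
    exact conjDer_one (D j)
  rw [h]
  rfl

theorem act_mul (g h : L ≃ₐ[k] L) {r : ℕ} (τ : Ten k L r) : act (g * h) τ = act g (act h τ) := by
  ext D
  rfl

theorem act_add (g : L ≃ₐ[k] L) {r : ℕ} (τ τ' : Ten k L r) :
    act g (τ + τ') = act g τ + act g τ' := by
  ext D
  simp only [act_apply, add_apply, map_add]

theorem act_smul (g : L ≃ₐ[k] L) {r : ℕ} (c : k) (τ : Ten k L r) :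
    act g (algebraMap k L c • τ) = algebraMap k L c • act g τ := by
  ext D
  simp only [act_apply, smul_apply, smul_eq_mul, map_mul, AlgEquiv.commutes]

theorem act_sum (g : L ≃ₐ[k] L) {r : ℕ} {ι : Type*} (s : Finset ι) (τ : ι → Ten k L r) :
    act g (∑ i ∈ s, τ i) = ∑ i ∈ s, act g (τ i) := by
  classical
  induction s using Finset.induction_on with
  | empty =>
    ext D
    simp [act_apply]
  | insert a s ha ih => rw [Finset.sum_insert ha, Finset.sum_insert ha, act_add, ih]

theorem eigen_iff (g : L ≃ₐ[k] L) (c : k) {r : ℕ} (τ : Ten k L r) :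
    Eigen g c τ ↔ act g τ = algebraMap k L c • τ := by
  constructor
  · intro h
    ext D
    rw [act_apply, h, smul_apply, smul_eq_mul]
    congr 2
    funext j
    have := conjDer_symm g.symm (D j)
    simpa using this
  · intro h D
    have h1 := congrArg (fun σ : Ten k L r => σ (fun j => conjDer g (D j))) h
    simp only [act_apply, smul_apply, smul_eq_mul, conjDer_symm] at h1
    exact h1

/-- the projection to the eigenspace -/
noncomputable def eproj (g : L ≃ₐ[k] L) (ζ : k) (e : ℕ) {r : ℕ} (a : ℕ) (τ : Ten k L r) :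
    Ten k L r :=
  algebraMap k L (e : k)⁻¹ • ∑ i ∈ Finset.range e, algebraMap k L (ζ⁻¹ ^ (a * i)) • act (g ^ i) τ

theorem eproj_eigen [CharZero k] (g : L ≃ₐ[k] L) {ζ : k} {e : ℕ} (he : 0 < e)
    (hζ : IsPrimitiveRoot ζ e) (hg : g ^ e = 1) {r : ℕ} (a : ℕ) (τ : Ten k L r) :
    Eigen g (ζ ^ a) (eproj g ζ e a τ) := by
  rw [eigen_iff]
  unfold eproj
  have hζ0 : ζ ≠ 0 := hζ.ne_zero he.ne'
  rw [act_smul, act_sum, smul_comm]
  congr 1
  rw [Finset.smul_sum]
  let f : ℕ → Ten k L r := fun i => algebraMap k L (ζ ^ a * ζ⁻¹ ^ (a * i)) • act (g ^ i) τ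
  have h1 : ∀ i, act g (algebraMap k L (ζ⁻¹ ^ (a * i)) • act (g ^ i) τ) = f (i + 1) := by
    intro i
    change _ = algebraMap k L (ζ ^ a * ζ⁻¹ ^ (a * (i + 1))) • act (g ^ (i + 1)) τ
    rw [act_smul, ← act_mul, pow_succ' g i]
    congr 2
    rw [mul_add, mul_one, pow_add, inv_pow, inv_pow]
    have := pow_ne_zero a hζ0
    field_simp
  have h2 : ∀ i, algebraMap k L (ζ ^ a) • algebraMap k L (ζ⁻¹ ^ (a * i)) • act (g ^ i) τ
      = f i := by
    intro i
    change _ = algebraMap k L (ζ ^ a * ζ⁻¹ ^ (a * i)) • act (g ^ i) τ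
    rw [smul_smul, ← map_mul]
  rw [Finset.sum_congr rfl fun i _ => h1 i, Finset.sum_congr rfl fun i _ => h2 i]
  have h3 := Finset.sum_range_succ f e
  have h4 := Finset.sum_range_succ' f e
  have h5 : f e = f 0 := by
    change algebraMap k L (ζ ^ a * ζ⁻¹ ^ (a * e)) • act (g ^ e) τ =
      algebraMap k L (ζ ^ a * ζ⁻¹ ^ (a * 0)) • act (g ^ 0) τ
    rw [hg, pow_zero, mul_zero, pow_zero, mul_comm a e, pow_mul, inv_pow, hζ.pow_eq_one, inv_one,
      one_pow]
  rw [h4, h5] at h3
  exact add_right_cancel h3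

theorem eproj_sum [CharZero k] (g : L ≃ₐ[k] L) {ζ : k} {e : ℕ} (he : 0 < e)
    (hζ : IsPrimitiveRoot ζ e) {r : ℕ} (τ : Ten k L r) :
    ∑ a ∈ Finset.range e, eproj g ζ e a τ = τ := by
  unfold eproj
  have hζ0 : ζ ≠ 0 := hζ.ne_zero he.ne'
  rw [← Finset.smul_sum, Finset.sum_comm]
  have h1 : ∀ i ∈ Finset.range e, ∑ a ∈ Finset.range e,
      algebraMap k L (ζ⁻¹ ^ (a * i)) • act (g ^ i) τ = if i = 0 then (e : L) • τ else 0 := by
    intro i hi
    rw [← Finset.sum_smul, ← map_sum]
    by_cases hi0 : i = 0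
    · rw [if_pos hi0, hi0]
      simp only [mul_zero, pow_zero, Finset.sum_const, Finset.card_range, nsmul_eq_mul, mul_one,
        map_natCast]
      rw [act_one]
    · rw [if_neg hi0]
      have h2 : ∑ a ∈ Finset.range e, ζ⁻¹ ^ (a * i) = 0 := by
        have h3 : IsPrimitiveRoot ζ⁻¹ e := hζ.inv
        have h4 : (ζ⁻¹ ^ i) ≠ 1 := h3.pow_ne_one_of_pos_of_lt hi0 (Finset.mem_range.1 hi)
        have h5 : ∀ a, ζ⁻¹ ^ (a * i) = (ζ⁻¹ ^ i) ^ a := fun a => by
          rw [mul_comm, pow_mul]
        rw [Finset.sum_congr rfl fun a _ => h5 a]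
        have h6 := mul_geom_sum (ζ⁻¹ ^ i) e
        rw [← pow_mul, mul_comm i e, pow_mul, h3.pow_eq_one, one_pow, sub_self] at h6
        exact (mul_eq_zero.1 h6).resolve_left (sub_ne_zero.2 h4)
      rw [h2, map_zero, zero_smul]
  rw [Finset.sum_congr rfl h1, Finset.sum_ite_eq' (Finset.range e) 0 (fun _ => (e : L) • τ),
    if_pos (Finset.mem_range.2 he), smul_smul]
  have h7 : (e : k) ≠ 0 := Nat.cast_ne_zero.2 he.ne'
  rw [map_inv₀, map_natCast, inv_mul_cancel₀, one_smul]
  intro h8
  apply h7
  have h9 : algebraMap k L (e : k) = 0 := by rw [map_natCast, h8]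
  exact (map_eq_zero (algebraMap k L)).1 h9

/-! ### holomorphic tensors -/

theorem Holo.add {n r : ℕ} {τ τ' : Ten k L r} (h : Holo n τ) (h' : Holo n τ') :
    Holo n (τ + τ') := fun w hw D hD => w.reg_add (h w hw D hD) (h' w hw D hD)

theorem Holo.zero {n r : ℕ} : Holo n (0 : Ten k L r) := fun w _ _ _ => w.reg_zero

theorem Holo.smul {n r : ℕ} {τ : Ten k L r} (h : Holo n τ) (c : k) :
    Holo n (algebraMap k L c • τ) := fun w hw D hD => w.reg_mul (w.reg_const c) (h w hw D hD)

theorem Holo.sum {n r : ℕ} {ι : Type*} (s : Finset ι) (τ : ι → Ten k L r)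
    (h : ∀ i ∈ s, Holo n (τ i)) : Holo n (∑ i ∈ s, τ i) := by
  classical
  induction s using Finset.induction_on with
  | empty => rw [Finset.sum_empty]; exact Holo.zero
  | insert a s ha ih =>
    rw [Finset.sum_insert ha]
    exact (h a (Finset.mem_insert_self a s)).add
      (ih fun i hi => h i (Finset.mem_insert_of_mem hi))

theorem divisorial_comp {n : ℕ} {w : Place k L} (hw : IsDivisorial w n) (g : L ≃ₐ[k] L) :
    IsDivisorial (w.comp g) n := by
  obtain ⟨y, hy⟩ := hw
  refine ⟨fun i => g.symm (y i), fun p hp => ?_⟩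
  have h1 : MvPolynomial.aeval (fun i => g.symm (y i)) p = g.symm (MvPolynomial.aeval y p) :=
    (MvPolynomial.comp_aeval_apply (f := y) ((g.symm : L ≃ₐ[k] L) : L →ₐ[k] L) p).symm
  rw [h1, Place.comp_ord, AlgEquiv.apply_symm_apply]
  exact ⟨by simpa using (hy p hp).1, (hy p hp).2⟩

theorem Holo.act {n r : ℕ} {τ : Ten k L r} (h : Holo n τ) (g : L ≃ₐ[k] L) :
    Holo n (act g τ) := by
  intro w hw D hD
  have h1 := h (w.comp g) (divisorial_comp hw g) (fun j => conjDer g.symm (D j)) (by
    intro j f hf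
    have h2 : w.Reg (g f) := by
      rcases hf with hf | hf
      · left; rw [hf, map_zero]
      · right; rwa [Place.comp_ord] at hf
    have h3 := hD j (g f) h2
    rw [cd_apply]
    rcases h3 with h3 | h3
    · left
      change g.symm (D j (g f)) = 0
      rw [h3, map_zero]
    · right
      rw [Place.comp_ord, AlgEquiv.apply_symm_apply]
      exact h3)
  rw [act_apply]
  rcases h1 with h1 | h1
  · left; rw [h1, map_zero]
  · right; rwa [Place.comp_ord] at h1

theorem Holo.eproj {n r : ℕ} {τ : Ten k L r} (h : Holo n τ) (g : L ≃ₐ[k] L) (ζ : k) (e a : ℕ) :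
    Holo n (eproj g ζ e a τ) :=
  (Holo.sum _ _ fun i _ => (h.act (g ^ i)).smul _).smul _

end

end Pool.Agent.T9h4.RQ
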