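import Pool.Agent.T9h4.RQ.Desc
import Pool.Agent.T9h4.RQ.Wedge

/-! Estimates at the divisors with inertia. -/

set_option autoImplicit false
set_option linter.overlappingInstances false
set_option linter.unusedSectionVars false

universe u v

open FF IntermediateField Pool.Agent.W619.PQ Pool.Agent.W619.PL Pool.Agent.W619.TW
  Pool.Agent.W603.LV Pool.Agent.W619.Y

namespace Pool.Agent.T9h4.RQ

section

variable {k : Type v} {L : Type u} [Field k] [Field L] [Algebra k L]

theorem pres_of_log {w : Place k L} {D : Derivation k L L} (hD : ∀ z, w.Reg (D z / z)) :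
    ∀ f, w.Reg f → w.Reg (D f) := by
  intro f hf
  by_cases h0 : f = 0
  · rw [h0, map_zero]; exact w.reg_zero
  · have h1 : D f = (D f / f) * f := by field_simp
    rw [h1]
    exact w.reg_mul (hD f) hf

/-- an eigentensor -/
theorem ge_eigen [CharZero k] {w : Place k L} {h : L ≃ₐ[k] L} {ζ : k} {e : ℕ} (he : 0 < e)
    (hζ : IsPrimitiveRoot ζ e)
    (hgen : ∀ z : L, z ≠ 0 → Ge w (w.ord z + 1) (h z - algebraMap k L (ζ ^ (w.ord z)) * z))
    {n r : ℕ} {τ : Ten k L r} (hτ : Holo n τ) (hw : IsDivisorial w n) {a : ℕ} (ha : a < e)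
    (hE : Eigen h (ζ ^ a) τ) (D : Fin r → Derivation k L L)
    (hD : ∀ j, ∀ z, w.Reg (D j z / z)) (hDh : ∀ j z, h (D j z) = D j (h z)) :
    Ge w a (τ D) := by
  by_cases h0 : τ D = 0
  · exact Or.inl h0
  have hζ0 : ζ ≠ 0 := hζ.ne_zero he.ne'
  have h1 : 0 ≤ w.ord (τ D) := (hτ w hw D fun j => pres_of_log (hD j)).resolve_left h0
  have h2 : h (τ D) = algebraMap k L (ζ ^ a) * τ D := by
    rw [hE]
    congr 2
    funext j
    ext z
    rw [cd_apply, hDh, AlgEquiv.apply_symm_apply]
  have h3 := hgen (τ D) h0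
  rw [h2, ← sub_mul, ← map_sub] at h3
  have h4 : ζ ^ a = ζ ^ (w.ord (τ D)) := by
    by_contra hne
    have h5 : (ζ ^ a - ζ ^ (w.ord (τ D))) ≠ 0 := sub_ne_zero.2 hne
    have h6 : algebraMap k L (ζ ^ a - ζ ^ (w.ord (τ D))) ≠ 0 :=
      (map_ne_zero (algebraMap k L)).2 h5
    rcases h3 with h3 | h3
    · exact (mul_ne_zero h6 h0) h3
    · rw [w.ord_mul h6 h0, w.ord_const h5] at h3
      omega
  have h5 : (e : ℤ) ∣ w.ord (τ D) - a := by
    rw [← hζ.zpow_eq_one_iff_dvd, zpow_sub₀ hζ0, ← h4, zpow_natCast, div_self]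
    exact pow_ne_zero _ hζ0
  right
  obtain ⟨c, hc⟩ := h5
  have h6 : 0 ≤ c := by
    by_contra hcon
    push Not at hcon
    have h7 : (e : ℤ) * c ≤ -e := by nlinarith
    have h8 : (a : ℤ) < e := by exact_mod_cast ha
    omega
  have h7 : 0 ≤ (e : ℤ) * c := by positivity
  omega

/-- The exterior product of holomorphic tensors at a divisor with inertia. -/
theorem ge_wedge [CharZero k] {w : Place k L} {h : L ≃ₐ[k] L} {ζ : k} {d : ℕ} (hd : 0 < d)
    (hζ : IsPrimitiveRoot ζ d) (hh : h ^ d = 1)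
    (hgen : ∀ z : L, z ≠ 0 → Ge w (w.ord z + 1) (h z - algebraMap k L (ζ ^ (w.ord z)) * z))
    {l n : ℕ} {p : Fin l → ℕ} (e : (Σ i, Fin (p i)) ≃ Fin n) (hw : IsDivisorial w n) {N : ℕ}
    (hRT : ∀ (a : Fin l → ℕ) (τ : ∀ i, Ten k L (p i)),
      (∀ i, a i < d ∧ Holo n (τ i) ∧ Eigen h (ζ ^ a i) (τ i)) →
      (∃ D, wedge e τ D ≠ 0) → N ≤ ∑ i, a i)
    (τ : ∀ i, Ten k L (p i)) (hτ : ∀ i, Holo n (τ i)) (D : Fin n → Derivation k L L)
    (hD : ∀ j, ∀ z, w.Reg (D j z / z)) (hDh : ∀ j z, h (D j z) = D j (h z)) :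
    Ge w N (wedge e τ D) := by
  classical
  have h1 : wedge e τ D = ∑ c ∈ Fintype.piFinset (fun _ : Fin l => Finset.range d),
      wedge e (fun i => eproj h ζ d (c i) (τ i)) D := by
    unfold wedge
    rw [Finset.sum_comm]
    refine Finset.sum_congr rfl fun s _ => ?_
    rw [← Finset.mul_sum]
    congr 1
    rw [← Finset.prod_univ_sum (fun _ : Fin l => Finset.range d)
      (fun i c => eproj h ζ d c (τ i) (fun j => D (s (e ⟨i, j⟩))))]
    refine Finset.prod_congr rfl fun i _ => ?_
    have h2 := congrArg (fun σ : Ten k L (p i) => σ (fun j => D (s (e ⟨i, j⟩))))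
      (eproj_sum h hd hζ (τ i))
    simp only [MultilinearMap.sum_apply] at h2
    exact h2.symm
  rw [h1]
  refine Ge.sum _ _ fun c hc => ?_
  have hc' : ∀ i, c i < d := fun i => Finset.mem_range.1 (Fintype.mem_piFinset.1 hc i)
  by_cases hne : ∃ D', wedge e (fun i => eproj h ζ d (c i) (τ i)) D' ≠ 0
  · have h2 := hRT c (fun i => eproj h ζ d (c i) (τ i)) (fun i => ⟨hc' i, (hτ i).eproj h ζ d _,
      eproj_eigen h hd hζ hh _ _⟩) hne
    refine Ge.mono (by exact_mod_cast h2 : (N : ℤ) ≤ ((∑ i, c i : ℕ) : ℤ)) ?_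
    unfold wedge
    refine Ge.sum _ _ fun s _ => ?_
    have h3 : Ge w ((∑ i, c i : ℕ) : ℤ)
        (∏ i, eproj h ζ d (c i) (τ i) (fun j => D (s (e ⟨i, j⟩)))) := by
      have := Ge.prod (P := w) Finset.univ
        (fun i => eproj h ζ d (c i) (τ i) (fun j => D (s (e ⟨i, j⟩)))) (fun i => (c i : ℤ))
        (fun i _ => ge_eigen hd hζ hgen ((hτ i).eproj h ζ d _) hw (hc' i)
          (eproj_eigen h hd hζ hh _ _) _ (fun j => hD _) (fun j => hDh _))
      push_cast
      exact this
    have h4 := (Ge.intCast (P := w) (Equiv.Perm.sign s : ℤ)).mul h3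
    rw [zero_add] at h4
    exact h4
  · push Not at hne
    rw [hne D]
    exact Ge.zero

theorem reg_wedge {l n : ℕ} {p : Fin l → ℕ} (e : (Σ i, Fin (p i)) ≃ Fin n)
    (τ : ∀ i, Ten k L (p i)) (hτ : ∀ i, Holo n (τ i)) (w : Place k L) (hw : IsDivisorial w n) :
    RegularAt w n (wedge e τ) := by
  intro D hD
  change Ge w 0 (wedge e τ D)
  unfold wedge
  refine Ge.sum _ _ fun s _ => ?_
  have h3 : Ge w 0 (∏ i, τ i (fun j => D (s (e ⟨i, j⟩)))) := by
    have := Ge.prod (P := w) Finset.univ
      (fun i => τ i (fun j => D (s (e ⟨i, j⟩)))) (fun _ => (0 : ℤ))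
      (fun i _ => hτ i w hw _ fun j => hD _)
    simpa using this
  have h4 := (Ge.intCast (P := w) (Equiv.Perm.sign s : ℤ)).mul h3
  rw [zero_add] at h4
  exact h4

end

section

variable {k : Type v} {L : Type u} [Field k] [CharZero k] [Field L] [Algebra k L]

/-- A regular `m`-fold pluricanonical form has order at least `m` on logarithmic vector fields. -/
theorem ge_log_pluri [Algebra.EssFiniteType k L] {n m : ℕ} (hn : Algebra.trdeg k L = (n : ℕ))
    {Φ : (Fin n → Derivation k L L) → L} (hΦ : IsPluriForm k L n m Φ) {w : Place k L}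
    (hw : IsDivisorial w n) (hreg : RegularAt w n Φ) (D : Fin n → Derivation k L L)
    (hD : ∀ j, ∀ z, w.Reg (D j z / z)) : Ge w m (Φ D) := by
  classical
  have hfin : ∀ y : Fin n → L, IsTranscendenceBasis k y →
      FiniteDimensional (IntermediateField.adjoin k (Set.range y)) L := by
    intro y hy
    have hess : Algebra.EssFiniteType (IntermediateField.adjoin k (Set.range y)) L :=
      Algebra.EssFiniteType.of_comp k _ L
    have halg : Algebra.IsAlgebraic (IntermediateField.adjoin k (Set.range y)) L :=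
      hy.isAlgebraic_field
    obtain ⟨s, hs⟩ := IntermediateField.fg_top (IntermediateField.adjoin k (Set.range y)) L
    have h1 : FiniteDimensional (IntermediateField.adjoin k (Set.range y))
        (IntermediateField.adjoin (IntermediateField.adjoin k (Set.range y)) (s : Set L)) :=
      IntermediateField.finiteDimensional_adjoin fun x _ =>
        (Algebra.IsAlgebraic.isAlgebraic x).isIntegral
    rw [hs] at h1
    exact (IntermediateField.topEquiv (F := IntermediateField.adjoin k (Set.range y))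
      (E := L)).toLinearEquiv.finiteDimensional
  obtain ⟨y, E, i0, hy, hE, hyo, hyr, hEp⟩ := pFRAME k L n hn hfin w hw
  have hy0 : y i0 ≠ 0 := by
    intro h0
    rw [h0, w.ord_zero] at hyo
    omega
  have h1 : D = fun i => ∑ j, (Matrix.of fun i j => D i (y j)) i j • E j := by
    funext i
    have h2 : ∀ f, (D i - ∑ j, D i (y j) • E j) f = 0 := by
      refine der_zero _ y hy fun l => ?_
      rw [Derivation.sub_apply, Pool.Agent.W721.PG.EFF2.der_sum]
      have h3 : ∀ j, D i (y j) * E j (y l) = if j = l then D i (y j) else 0 := by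
        intro j
        rw [hE]
        split_ifs <;> simp
      rw [Finset.sum_congr rfl fun j _ => h3 j]
      simp
    ext f
    have h3 := h2 f
    rw [Derivation.sub_apply, sub_eq_zero] at h3
    exact h3
  rw [h1, hΦ]
  have h2 : Ge w 0 (Φ E) := hreg E hEp
  have h3 : Ge w 1 (Matrix.of fun i j => D i (y j)).det := by
    let v : Fin n → L := fun j => if j = i0 then y i0 else 1
    have h4 : (Matrix.of fun i j => D i (y j)) =
        Matrix.of fun i j => v j * (Matrix.of fun i j => D i (y j) / v j) i j := by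
      ext i j
      have hv : v j ≠ 0 := by
        simp only [v]
        split_ifs
        · exact hy0
        · exact one_ne_zero
      simp only [Matrix.of_apply]
      field_simp
    rw [h4, Matrix.det_mul_row]
    have h5 : ∏ j, v j = y i0 := by simp [v]
    rw [h5]
    have h6 : Ge w 0 (Matrix.of fun i j => D i (y j) / v j).det := by
      apply ge_det
      intro i j
      simp only [Matrix.of_apply, v]
      split_ifs with hj
      · rw [hj]
        exact hD i (y i0)
      · rw [div_one]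
        exact pres_of_log (hD i) _ (hyr j)
    have h7 : Ge w 1 (y i0) := Or.inr hyo.ge
    have h8 := h7.mul h6
    rw [add_zero] at h8
    exact h8
  have h4 := (h3.pow m).mul h2
  simpa using h4

end

end Pool.Agent.T9h4.RQ
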