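import Pool.Agent.T9h4.RQ.Est
import Pool.Agent.W300.PG.TRGE

/-! Kodaira dimension and numerical dimension of quotients. -/

set_option autoImplicit false
set_option linter.overlappingInstances false
set_option linter.unusedSectionVars false

universe u v

open FF IntermediateField Pool.Agent.W619.PQ Pool.Agent.W619.PL Pool.Agent.W619.TW
  Pool.Agent.W603.LV Pool.Agent.W619.Y

namespace Pool.Agent.T9h4.RQ

section

variable {k : Type v} {L : Type u} [Field k] [CharZero k] [IsAlgClosed k] [Field L] [Algebra k L]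

theorem ge_wedge_of_rt {n c : ℕ} {G : Subgroup (L ≃ₐ[k] L)} [Finite G] {l : ℕ} {p : Fin l → ℕ}
    {e : (Σ i, Fin (p i)) ≃ Fin n} (hRT : RTCond (k := k) n c G e) (τ : ∀ i, Ten k L (p i))
    (hτ : ∀ i, Holo n (τ i)) (w : Place k L) (h : G) (ζ : k) (hw : IsDivisorial w n) (h1 : h ≠ 1)
    (hζ : IsPrimitiveRoot ζ (orderOf h)) (hin : Inert w (h : L ≃ₐ[k] L))
    (hgen : ∀ z : L, z ≠ 0 → Ge w (w.ord z + 1)
      ((h : L ≃ₐ[k] L) z - algebraMap k L (ζ ^ (w.ord z)) * z))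
    (D : Fin n → Derivation k L L) (hD : ∀ j, ∀ z, w.Reg (D j z / z))
    (hDh : ∀ j z, (h : L ≃ₐ[k] L) (D j z) = D j ((h : L ≃ₐ[k] L) z)) :
    Ge w ((orderOf h + c : ℕ) : ℤ) (wedge e τ D) := by
  have hd : 0 < orderOf h := orderOf_pos h
  have hoc : orderOf (h : L ≃ₐ[k] L) = orderOf h := Subgroup.orderOf_coe h
  refine ge_wedge hd hζ ?_ hgen e hw ?_ τ hτ D hD hDh
  · rw [← hoc]; exact pow_orderOf_eq_one _
  · intro a σ hσ hne
    have h2 := hRT (h : L ≃ₐ[k] L) h.2 (fun h3 => h1 (Subtype.ext h3))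
      ⟨w, hw, fun z hz => hin z hz⟩ ζ (by rw [hoc]; exact hζ) a σ (by rw [hoc]; exact hσ) hne
    rw [hoc] at h2
    exact h2

theorem desc_wedge {n : ℕ} {G : Subgroup (L ≃ₐ[k] L)} [Finite G] {l : ℕ} {p : Fin l → ℕ}
    {e : (Σ i, Fin (p i)) ≃ Fin n} (hRT : RTCond (k := k) n 0 G e) (τ : ∀ i, Ten k L (p i))
    (hτ : ∀ i, Holo n (τ i)) : Desc G n 1 (wedge e τ) := by
  refine ⟨fun w hw => reg_wedge e τ hτ w hw, fun w h ζ hw h1 hζ hin hgen D hD hDh => ?_⟩
  have h2 := ge_wedge_of_rt hRT τ hτ w h ζ hw h1 hζ hin hgen D hD hDh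
  simpa using h2

theorem desc_mul [Algebra.EssFiniteType k L] {n m : ℕ} (hn : Algebra.trdeg k L = (n : ℕ))
    {G : Subgroup (L ≃ₐ[k] L)} [Finite G]
    {l : ℕ} {p : Fin l → ℕ} {e : (Σ i, Fin (p i)) ≃ Fin n} (hRT : RTCond (k := k) n 1 G e)
    (τ : ∀ i, Ten k L (p i)) (hτ : ∀ i, Holo n (τ i)) {Φ : (Fin n → Derivation k L L) → L}
    (hΦ : IsPluriForm k L n m Φ) (hreg : ∀ w : Place k L, IsDivisorial w n → RegularAt w n Φ) :
    Desc G n (m + m * Nat.card G) (fun D => Φ D * wedge e τ D ^ (m * Nat.card G)) := by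
  refine ⟨fun w hw D hD => ?_, fun w h ζ hw h1 hζ hin hgen D hD hDh => ?_⟩
  · have h2 : Ge w 0 (Φ D) := hreg w hw D hD
    have h3 : Ge w 0 (wedge e τ D) := reg_wedge e τ hτ w hw D hD
    have h4 := h2.mul (h3.pow (m * Nat.card G))
    change Ge w 0 _
    simpa using h4
  · have h2 := ge_wedge_of_rt hRT τ hτ w h ζ hw h1 hζ hin hgen D hD hDh
    have h3 := ge_log_pluri hn hΦ hw (hreg w hw) D hD
    have h4 := h3.mul (h2.pow (m * Nat.card G))
    refine h4.mono ?_
    have h5 : orderOf h ≤ Nat.card G := Nat.le_of_dvd Nat.card_pos (orderOf_dvd_natCard h)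
    push_cast
    have h6 : (orderOf h : ℤ) ≤ Nat.card G := by exact_mod_cast h5
    have h7 : (0 : ℤ) ≤ m := by positivity
    nlinarith [mul_le_mul_of_nonneg_left h6 h7]

/-- top forms vanish on the same vector fields -/
theorem nonzero_of_nonzero {n m m' : ℕ} (hm : 1 ≤ m) (hn : Algebra.trdeg k L = (n : ℕ))
    {Φ Ψ : (Fin n → Derivation k L L) → L} (hΦ : IsPluriForm k L n m Φ)
    {D : Fin n → Derivation k L L} (hD : Φ D ≠ 0) (hΨ : IsPluriForm k L n m' Ψ)
    {E : Fin n → Derivation k L L} (hE : Ψ E ≠ 0) : Ψ D ≠ 0 := by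
  classical
  have : CharZero L := charZero_of_alg (k := k)
  obtain ⟨y, hy⟩ := exists_fin_basis (k := k) n hn
  choose F hF using fun j => exists_dual y hy j
  refine der_nonzero_of_basis hΨ hE hy ?_
  have h1 : D = fun i => ∑ j, (Matrix.of fun i j => D i (y j)) i j • F j := by
    funext i
    have h2 : ∀ f, (D i - ∑ j, D i (y j) • F j) f = 0 := by
      refine der_zero _ y hy fun l => ?_
      rw [Derivation.sub_apply, Pool.Agent.W721.PG.EFF2.der_sum]
      have h3 : ∀ j, D i (y j) * F j (y l) = if l = j then D i (y j) else 0 := by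
        intro j
        rw [hF]
        split_ifs <;> simp
      rw [Finset.sum_congr rfl fun j _ => h3 j]
      simp
    ext f
    have h3 := h2 f
    rw [Derivation.sub_apply, sub_eq_zero] at h3
    exact h3
  intro h0
  apply hD
  have h2 : (Matrix.of fun i j => D i (y j)).det = 0 := by
    rw [← h0, ← Matrix.det_transpose]
    rfl
  rw [h1, hΦ, h2, zero_pow (by omega), zero_mul]

/-- products of forms descend: the weak condition -/
theorem kod_weak {n : ℕ} (hn : Algebra.trdeg k L = (n : ℕ)) (G : Subgroup (L ≃ₐ[k] L)) [Finite G]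
    {l : ℕ} {p : Fin l → ℕ} (e : (Σ i, Fin (p i)) ≃ Fin n) (hRT : RTCond (k := k) n 0 G e)
    (a : ℕ) (τ : Fin (a + 1) → ∀ i, Ten k L (p i)) (hτ : ∀ j i, Holo n (τ j i))
    (hind : ∃ D, (∀ j, wedge e (τ j) D ≠ 0) ∧
      AlgebraicIndependent k fun j : Fin a => wedge e (τ j.succ) D / wedge e (τ 0) D) :
    KodTr k (fixedField G) n a :=
  kod_down n 1 a le_rfl hn G (fun j => wedge e (τ j)) (fun j => wedge_pluri e (τ j))
    (fun j => desc_wedge hRT (τ j) (hτ j)) hind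

theorem reg_of_sec {n m : ℕ} {Φ : (Fin n → Derivation k L L) → L}
    (h : IsSec k L n (fun _ => False) {1} m 0 Φ) (w : Place k L) (hw : IsDivisorial w n) :
    RegularAt w n Φ := by
  intro D hD
  rcases h.2.1 w hw (fun h => h) D hD with h1 | ⟨s, hs, hs0, h1⟩
  · exact Or.inl h1
  · right
    simpa using h1

/-- the strict condition -/
theorem kod_strict [Algebra.EssFiniteType k L] {n : ℕ} (hn : Algebra.trdeg k L = (n : ℕ))
    (G : Subgroup (L ≃ₐ[k] L)) [Finite G]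
    {l : ℕ} {p : Fin l → ℕ} (e : (Σ i, Fin (p i)) ≃ Fin n) (hRT : RTCond (k := k) n 1 G e)
    (τ : ∀ i, Ten k L (p i)) (hτ : ∀ i, Holo n (τ i)) (hne : ∃ D, wedge e τ D ≠ 0)
    (a : ℕ) (ha : KodTr k L n a) : KodTr k (fixedField G) n a := by
  obtain ⟨m, hm, ω, hω, D0, hD0, hind⟩ := ha
  refine kod_down n (m + m * Nat.card G) a (by omega) hn G
    (fun j D => ω j D * wedge e τ D ^ (m * Nat.card G)) (fun j => ?_) (fun j => ?_)
    ⟨D0, fun j => ?_, ?_⟩
  · have h1 := pluri_pow (wedge_pluri e τ) (m * Nat.card G)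
    rw [one_mul] at h1
    exact pluri_mul (hω j).1 h1
  · exact desc_mul hn hRT τ hτ (hω j).1 (reg_of_sec (hω j))
  · refine mul_ne_zero (hD0 j) (pow_ne_zero _ ?_)
    obtain ⟨E, hE⟩ := hne
    -- both are top forms
    exact nonzero_of_nonzero hm hn (hω 0).1 (hD0 0) (wedge_pluri e τ) hE
  · have hw : wedge e τ D0 ≠ 0 := by
      obtain ⟨E, hE⟩ := hne
      exact nonzero_of_nonzero hm hn (hω 0).1 (hD0 0) (wedge_pluri e τ) hE
    have h1 : (fun j : Fin a => ω j.succ D0 * wedge e τ D0 ^ (m * Nat.card G) /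
        (ω 0 D0 * wedge e τ D0 ^ (m * Nat.card G))) = fun j : Fin a => ω j.succ D0 / ω 0 D0 := by
      funext j
      rw [mul_div_mul_right _ _ (pow_ne_zero _ hw)]
    rw [h1]
    exact hind

end

end Pool.Agent.T9h4.RQ
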